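import Pool.Agent.Run7.h561.EC.P_ALL
import Pool.Agent.Run7.h165.EC.Hp3
import Pool.Agent.Run7.h165.EC.Hp4
import Pool.Agent.Run7.h165.EC.Dom3

/-!
# The half-plane exploration path: every complementary component of every piece of the limits

Critical bond percolation on `ℤ × ℕ`, the edges `[x, x + 1]` of the real axis open for `x < 0` and
closed for `x ≥ 0`. The exploration path starts next to the origin and keeps the open cluster `C_-`
of the negative half-axis on its left; `gam ω k` is its point after `k` steps, and `curve n ω` is
the path `n ^ (-4/7) γ(n t)`, `0 ≤ t ≤ 1`, with law `lawH n`. Weak limits exist along a subsequence of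
every sequence `n → ∞`.

For every weak limit, almost surely, for all times `s < t` simultaneously:
* the boundary of EVERY connected component of `ℂ \ f[s, t]` has Hausdorff dimension exactly `4/3`,
  and the set of the times in `[s, t]` at which `f` is on it has dimension exactly `16/21`;
* the same for every component of `upperHalf \ f[s, t]` (the part of its boundary in `upperHalf`):
  with `s = 0`, the boundary of the hull of the past at EVERY time `t > 0` has dimension `4/3`;
* the same locally, for the components `C` of `U \ f[s, t]` for every open set `U`: for every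
  boundary point `z` of `C` in `U ∩ upperHalf` and every radius `ρ` the part of the boundary of `C`
  in `U ∩ upperHalf ∩ B(z, ρ)` has dimension exactly `4/3`, and its set of times dimension `16/21`.

(The starting file `SidesExact` has the dimension of the union of the boundaries of all the components
of the complement of the past, for every time.)

Definitions: `Pool.Agent.H984R4.HN.HPDefs` (`Conf`, `perc`, `opn`, `step`, `path`, `place`, `gam`,
`curve`), `Pool.Agent.H984R4.HN.FinalH` (`lawH`), `Pool.Agent.H984R4.NP.Model` (`pl`, `clamp`).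

Proof (project EC, helper561 and helper165): local richness near the tips of a cluster in a box,
passage to the limit, and a deterministic argument (see
`Pool.Agent.Results.MP_fe58d8_pr.EveryComponent`); here the curve is reversed in time (its
starting point is then outside of the box with large probability, by transience) and the pieces of
the curve on `[0, 1]` are rescaled pieces of a longer curve which has left a fixed ball.
-/

set_option autoImplicit false

namespace Pool.Agent.Results.MP_6c8efb_pr.EveryComponent

open H984H MeasureTheory Filter Topology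
open Run7.h165.EC
open scoped ENNReal

/-- The open upper half-plane. -/
def upperHalf : Set ℂ := {z | 0 < z.im}

/-- The boundary of the component of `w` in `U` minus the piece `f[s, t]`. -/
def bd (U : Set ℂ) (f : C(unitInterval, ℂ)) (s t : unitInterval) (w : ℂ) : Set ℂ :=
  frontier (connectedComponentIn (U \ f '' Set.Icc s t) w)

/-- The dimension is `4/3` in space and `16/21` in time. -/
def Dims (f : C(unitInterval, ℂ)) (s t : unitInterval) (S : Set ℂ) : Prop :=
  dimH S = 4 / 3 ∧ dimH {u : unitInterval | u ∈ Set.Icc s t ∧ f u ∈ S} = 16 / 21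

theorem result :
    (∀ φ : ℕ → ℕ, Tendsto φ atTop atTop → ∃ ψ : ℕ → ℕ, StrictMono ψ ∧
      ∃ μ : ProbabilityMeasure C(unitInterval, ℂ),
        Tendsto (fun i => lawH (φ (ψ i))) atTop (𝓝 μ)) ∧
    (∀ φ : ℕ → ℕ, Tendsto φ atTop atTop → ∀ μ : ProbabilityMeasure C(unitInterval, ℂ),
      Tendsto (fun i => lawH (φ i)) atTop (𝓝 μ) →
      ∀ᵐ f : C(unitInterval, ℂ) ∂(μ : Measure C(unitInterval, ℂ)), ∀ s t : unitInterval, s < t →
        (∀ w : ℂ, w ∉ f '' Set.Icc s t → Dims f s t (bd Set.univ f s t w)) ∧
        (∀ w ∈ upperHalf \ f '' Set.Icc s t, Dims f s t (bd upperHalf f s t w ∩ upperHalf)) ∧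
        ∀ U : Set ℂ, IsOpen U → ∀ w : ℂ, ∀ z ∈ bd U f s t w, z ∈ U → z ∈ upperHalf →
          ∀ ρ : ℝ, 0 < ρ →
            Dims f s t (bd U f s t w ∩ (U ∩ upperHalf ∩ Metric.ball z ρ))) := by
  obtain ⟨h1, h2⟩ := UniformDimension.result
  refine ⟨h1, fun φ hφ μ hμ => ?_⟩
  have hit := t_HITH Run7.h561.EC.a_LOC4 Run7.h561.EC.a_DUA Pool.Agent.Y989.FR.CHN.t_CHN
    t_QWC t_GEW
  filter_upwards [t_FINH hit t_AXI φ hφ μ hμ, h2 φ hφ μ hμ,
    Displacement.result.2.2.2.2.2 φ hφ μ hμ] with f hp hu hn
  obtain ⟨-, hcl, -, hdim, -⟩ := hn
  intro s t hst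
  have hKc : f '' Set.Icc s t ⊆ closure upperHalf := by
    rintro _ ⟨u, -, rfl⟩
    unfold upperHalf
    rw [half_clos]
    exact hcl u
  have hKD := half_meets hKc (hdim s t hst)
  have hD : IsOpen upperHalf := isOpen_lt continuous_const Complex.continuous_im
  have hKcl := (piece_compact f s t).isClosed
  have hx := half_pt (piece_compact f s t)
  refine ⟨fun w hw => ?_, fun w hw => ?_, fun U hU w z hz hzU hzD ρ hρ => ?_⟩
  · have e1 : bd Set.univ f s t w =
        frontier (connectedComponentIn (f '' Set.Icc s t)ᶜ w) := by
      unfold bd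
      rw [← Set.compl_eq_univ_sdiff]
    have e2 := whole hst hp half_conn half_out_conn half_front hKc hKD hx half_bd_dim hw
    have e3 : bd Set.univ f s t w ⊆ f '' Set.Icc s t := by
      have e4 := front_sub isOpen_univ hKcl w
      rwa [Set.inter_univ] at e4
    rw [← e1] at e2
    exact ⟨e2, times_on hu e3 e2⟩
  · have e2 := wholeD hD hst hp half_conn hKD hw
    exact ⟨e2, times_on hu (front_sub hD hKcl w) e2⟩
  · have e2 := hp s t hst U hU w z hzU hzD hz ρ hρ
    refine ⟨e2, times_on hu ?_ e2⟩
    rintro y ⟨hy1, ⟨hy2, -⟩, -⟩
    exact front_sub hU hKcl w ⟨hy1, hy2⟩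

end Pool.Agent.Results.MP_6c8efb_pr.EveryComponent
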