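import Pool.Agent.Run7.h537.HF.Meas

/-!
# The frontier of the half-plane exploration path: sharp tails and the law of the iterated logarithm

Critical bond percolation on `ℤ × ℕ`, the edges `[x, x + 1]` of the real axis open for `x < 0` and
closed for `x ≥ 0` (definitions `Conf`, `perc`, `opn` of the starting file
`Pool.Agent.H984R4.HN.HPDefs`; `H974.Reach F u v`: a path of edges of `F` joins `u` and `v`). `C_-` is
the open cluster of the negative half-axis, whose outer boundary is traced by the exploration path.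
A vertex of `C_-` is on the frontier if it can be reached from below the positive half-axis without
crossing `C_-`; `N n` is the number of frontier vertices in `[-n, n] × [0, n]`.

The tails of `N n / n ^ (4/3)` are `exp (- Θ (x ^ 3))`, and almost surely the limit superior of
`N n / (n ^ (4/3) (log log n) ^ (1/3))` is positive and finite.

Upper bound: a frontier vertex has three arms to distance its height, and the number of such vertices
has tails `exp (- c x ^ 3)` (multi-scale bound of helper992). Lower bound: a comb of open cells under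
an arch of open crossings which is joined to the negative half-axis, with closed slits between its
teeth and a gadget of helper561 in each of the `(n / m) ^ 2` places along the slits; under the arch
nothing else is joined to the negative half-axis, in the whole half-plane. The combs and arches of
the scales `4 ^ j` use disjoint sets of edges.
-/

set_option autoImplicit false

namespace Pool.Agent.Results.MP_6c8efb_pr.FrontierLogarithm

open H984H MeasureTheory Filter

/-- `C_-`: the open cluster of the origin, which contains the negative half-axis. -/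
def Cminus (ω : Conf) : Set (ℤ × ℤ) := {v | H974.Reach (opn ω) (0, 0) v}

/-- Nearest neighbours of the square lattice. -/
def Nbr (u v : ℤ × ℤ) : Prop := |u.1 - v.1| + |u.2 - v.2| = 1

/-- The lattice points below the negative half-axis. -/
def below : Set (ℤ × ℤ) := {v | v.2 < 0 ∧ v.1 ≤ 0}

/-- Lattice paths (through open or closed edges) which avoid the set `B`. -/
def Path (B : Set (ℤ × ℤ)) : ℤ × ℤ → ℤ × ℤ → Prop :=
  Relation.ReflTransGen (fun u v => Nbr u v ∧ u ∉ B ∧ v ∉ B)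

/-- The vertex `w` of `C_-` is on the frontier: some lattice neighbour `p` of `w`, not in `C_-`, is
joined to a lattice point `q` below the positive half-axis by a lattice path which avoids `C_-` and the
lattice points below the negative half-axis. -/
def Frontier (ω : Conf) (w : ℤ × ℤ) : Prop :=
  w ∈ Cminus ω ∧ ∃ p q : ℤ × ℤ, Nbr w p ∧ p ∉ Cminus ω ∪ below ∧ (q.2 < 0 ∧ 0 < q.1) ∧
    Path (Cminus ω ∪ below) p q

open Classical in
/-- The number of frontier vertices in `[-n, n] × [0, n]`. -/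
noncomputable def N (n : ℕ) (ω : Conf) : ℝ :=
  ((((Finset.Icc (-(n : ℤ)) n ×ˢ Finset.Icc (0 : ℤ) n).filter (fun w => Frontier ω w)).card : ℕ) : ℝ)

theorem N_eq (n : ℕ) : N n = Run7.h537.HF.Nf n := by
  classical
  funext ω
  have h : ∀ w, Frontier ω w ↔ Run7.h537.FL.AccS (Run7.h537.HF.Cm ω)
      (Run7.h537.HF.Cm ω ∪ Run7.h537.HF.Oh) Run7.h537.HF.Qh w := by
    intro w
    rw [Run7.h537.HF.accS_plain, Run7.h537.HF.Cm_eq]
    exact Iff.rfl
  unfold N Run7.h537.HF.Nf Run7.h537.HF.bxN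
  simp only [h]

theorem ubound : ∃ C : ℝ, 1 ≤ C ∧ ∀ (c : ℤ × ℤ) (k : ℕ), 1 ≤ k → ∀ S : Finset H974.Edg,
    H12S.blk c k ⊆ S → H12S.PQ (1/2) S (fun F => Pool.Agent.W424.OD.A3v c 1 k ↑F) ≤
      C * (k : ℝ) ^ (-(2/3):ℝ) := by
  obtain ⟨C, hC, h⟩ := Run7.h561.i_U3
  refine ⟨C + 1, by linarith, fun c k hk S hS => ?_⟩
  have h1 := h c 1 k le_rfl hk S hS
  have hk0 : (0:ℝ) < k := by exact_mod_cast hk
  refine h1.trans ?_
  rw [Nat.cast_one, one_div, ← Real.rpow_neg_one, ← Real.rpow_mul hk0.le]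
  norm_num
  exact mul_le_mul_of_nonneg_right (by linarith) (by positivity)

/-- (0) `N n` is a random variable for every `n`.
(1) There are `C, c > 0` such that `P (N n ≥ x n ^ (4/3)) ≤ C exp (- c x ^ 3)` for all `n ≥ 1` and
`x ≥ 0`.
(2) There are `C, c > 0` and `n₀` such that `P (N n ≥ x n ^ (4/3)) ≥ exp (- C x ^ 3)` for all
`n ≥ n₀` and `1 ≤ x ≤ c n ^ (2/3)`.
(3) There are `C, c > 0` such that almost surely `N n ≤ C n ^ (4/3) (log log n) ^ (1/3)` for all large
`n`, and `N n ≥ c n ^ (4/3) (log log n) ^ (1/3)` for infinitely many `n`. -/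
theorem result :
    (∀ n : ℕ, Measurable (N n)) ∧
    (∃ C c : ℝ, 0 < C ∧ 0 < c ∧ ∀ n : ℕ, 1 ≤ n → ∀ x : ℝ, 0 ≤ x →
      perc.real {ω | x * (n : ℝ) ^ (4 / 3 : ℝ) ≤ N n ω} ≤ C * Real.exp (-(c * x ^ 3))) ∧
    (∃ (C c : ℝ) (n₀ : ℕ), 0 < C ∧ 0 < c ∧ ∀ n : ℕ, n₀ ≤ n → ∀ x : ℝ, 1 ≤ x →
      x ≤ c * (n : ℝ) ^ (2 / 3 : ℝ) →
      Real.exp (-(C * x ^ 3)) ≤ perc.real {ω | x * (n : ℝ) ^ (4 / 3 : ℝ) ≤ N n ω}) ∧
    (∃ C c : ℝ, 0 < C ∧ 0 < c ∧ ∀ᵐ ω ∂perc,
      (∀ᶠ n : ℕ in atTop,
        N n ω ≤ C * (n : ℝ) ^ (4 / 3 : ℝ) * (Real.log (Real.log n)) ^ (1 / 3 : ℝ)) ∧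
      (∃ᶠ n : ℕ in atTop,
        c * (n : ℝ) ^ (4 / 3 : ℝ) * (Real.log (Real.log n)) ^ (1 / 3 : ℝ) ≤ N n ω)) := by
  obtain ⟨C1, hC1, hU⟩ := ubound
  obtain ⟨K, c, hK, hc, hup⟩ := Run7.h537.HF.up_h hC1 hU
  obtain ⟨C', c', n0, hC', hc', hlow⟩ := Run7.h537.HF.low_h
  obtain ⟨C2, hC2, h2⟩ := Run7.h537.HF.lil_up hK hc hup
  obtain ⟨c3, hc3, h3⟩ := Run7.h537.HF.lil_low
  simp only [N_eq]
  refine ⟨Run7.h537.HF.meas_Nf, ⟨K, c, hK, hc, hup⟩, ⟨C', c', n0, hC', hc', hlow⟩,
    C2, c3, hC2, hc3, ?_⟩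
  filter_upwards [h2, h3] with ω g1 g2
  exact ⟨g1, g2⟩

end Pool.Agent.Results.MP_6c8efb_pr.FrontierLogarithm
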