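import Pool.Agent.Run7.h537.PT.Res

/-!
The number of pivotal edges for the left-right crossing of the square `[-n, n]²` in critical bond
percolation on `ℤ²`: it is of order `n ^ (3/4)`, the probability that it is at least `x n ^ (3/4)`
is `exp (-Θ(x ^ (8/5)))` for all `1 ≤ x ≤ c n ^ (5/4)` (a pivotal edge is a four-arm point of the
discrete interfaces), and its `k`-th moment is `Θ(1) ^ k (k!) ^ (5/8) n ^ (3 k / 4)`.

The upper bounds use the polymer sum of the starting files (`Pool.Agent.Y554.NE`), the lower bound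
a snake through all the cells of a grid (`Pool.Agent.Run7.h537.PT`) with the four-arm estimates of
the starting files (`Pool.Agent.W92`, `W571`, `W598`, `W52`, `W347`, `W801`).
-/

set_option autoImplicit false

namespace Pool.Agent.Results.MP_6c8efb_pr.PivotalTail

open Finset

/-- Vertices of the square lattice. -/
abbrev Vertex := ℤ × ℤ

/-- Edges: `(x, y, true)` joins `(x, y)` to `(x + 1, y)` and `(x, y, false)` joins `(x, y)` to
`(x, y + 1)`. -/
abbrev Edge := ℤ × ℤ × Bool

/-- First endpoint of an edge. -/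
def src (e : Edge) : Vertex := (e.1, e.2.1)

/-- Second endpoint of an edge. -/
def tgt (e : Edge) : Vertex := if e.2.2 then (e.1 + 1, e.2.1) else (e.1, e.2.1 + 1)

/-- `u` and `v` are joined by an edge of `F`. -/
def Adj (F : Finset Edge) (u v : Vertex) : Prop :=
  ∃ e ∈ F, (src e = u ∧ tgt e = v) ∨ (src e = v ∧ tgt e = u)

/-- `u` and `v` are joined by a path of edges of `F`. -/
def Conn (F : Finset Edge) (u v : Vertex) : Prop := Relation.ReflTransGen (Adj F) u v

/-- The set of the edges in the square `[-n, n]²`. -/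
noncomputable def edges (n : ℕ) : Finset Edge :=
  (Icc (-(n : ℤ)) n ×ˢ (Icc (-(n : ℤ)) n ×ˢ univ)).filter
    (fun e => (tgt e).1 ≤ n ∧ (tgt e).2 ≤ n)

/-- If `F` is the set of the open edges of the square, there is an open path from its left side to
its right side. -/
def Crossed (n : ℕ) (F : Finset Edge) : Prop :=
  ∃ y y' : ℤ, |y| ≤ n ∧ |y'| ≤ n ∧ Conn F (-(n : ℤ), y) ((n : ℤ), y')

open Classical in
/-- The pivotal edges: the square is crossed if `e` is open and not crossed if `e` is closed (the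
states of the other edges are kept). -/
noncomputable def pivotal (n : ℕ) (F : Finset Edge) : Finset Edge :=
  (edges n).filter (fun e => Crossed n (insert e F) ∧ ¬ Crossed n (F.erase e))

/-- Expectation at `p = 1 / 2`: a configuration is the set `F` of the open edges of the square. -/
noncomputable def expect (n : ℕ) (h : Finset Edge → ℝ) : ℝ :=
  (∑ F ∈ (edges n).powerset, h F) / 2 ^ (edges n).card

open Classical in
/-- Probability at `p = 1 / 2`. -/
noncomputable def prob (n : ℕ) (A : Finset Edge → Prop) : ℝ :=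
  (((edges n).powerset.filter A).card : ℝ) / 2 ^ (edges n).card

/-- The number of pivotal edges: tail bounds in both directions, with the same exponent `8 / 5`,
and all moments. -/
theorem result : ∃ c C : ℝ, 0 < c ∧ 0 < C ∧ ∀ n : ℕ, 1 ≤ n →
    (∀ x : ℝ, 0 ≤ x → prob n (fun F => x * (n:ℝ) ^ (3 / 4 : ℝ) ≤ (pivotal n F).card) ≤
      C * Real.exp (-(c * x ^ (8 / 5 : ℝ)))) ∧
    (∀ x : ℝ, 1 ≤ x → x ≤ c * (n:ℝ) ^ (5 / 4 : ℝ) → Real.exp (-(C * x ^ (8 / 5 : ℝ))) ≤
      prob n (fun F => x * (n:ℝ) ^ (3 / 4 : ℝ) ≤ (pivotal n F).card)) ∧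
    (∀ k : ℕ, expect n (fun F => ((pivotal n F).card : ℝ) ^ k) ≤
      C ^ k * (k.factorial : ℝ) ^ (5 / 8 : ℝ) * ((n:ℝ) ^ (3 / 4 : ℝ)) ^ k) ∧
    (∀ k : ℕ, 1 ≤ k → (k:ℝ) ≤ c * (n:ℝ) ^ 2 →
      c ^ k * (k.factorial : ℝ) ^ (5 / 8 : ℝ) * ((n:ℝ) ^ (3 / 4 : ℝ)) ^ k ≤
        expect n (fun F => ((pivotal n F).card : ℝ) ^ k)) :=
  Run7.h537.PT.Res.main

end Pool.Agent.Results.MP_6c8efb_pr.PivotalTail
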