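import Pool.Agent.Run7.h729.Ld.Ldm

/-!
# Large deviations of the path of the winding of critical percolation in long cylinders

Critical bond percolation on `ℤ²` (`p = 1/2`), and more generally on layered isoradial lattices, on the
universal cover of a cylinder of odd circumference `N = 2n+1`, in rotated coordinates: the corners
`(x, y)` of the unit squares (tiles) with `x + y` even are the vertices of the lattice, the corners with
`x + y` odd those of the dual lattice (across a seam the two lattices are exchanged), and in every tile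
exactly one diagonal is open.  There are `M` rows of tiles.  At the bottom the arcs `[kN, kN + 2n]` are
wired.  The cluster of the arc `[0, 2n]` crosses the cylinder; at the top it occupies the corners from
`left` to `left + 2n`: these are the end points of the two exploration paths which follow the boundary
of the cluster.

The angles of the rows are chosen adaptively: given the rows below it, the tiles of the row `t` are
independent with the isoradial probability `isoP θ` of an angle `θ` in `[0, π]` which may depend on the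
percolation in the rows below.  In the isoradial embedding the row has the height `sin θ` and the
horizontal shift `-cos θ`.  In units in which the circumference is `2π` the rows `A ≤ t < B` have the
height `height A B = 2π/N ∑ sin θ_t`, and the crossing turns in these rows by the angle
`wnd A B = 2π/N (left B - left A - ∑ cos θ_t)`.  For `θ = π/2` all tiles are fair coins.

The theorem: the large deviations of the path of the winding.  Let the rows be divided into `r` layers
`τ i ≤ t < τ (i+1)` of large heights `T i` (up to a bounded amount), and let `s i x i`, `s i = ±1`,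
`0 ≤ x i ≤ x₀`, be a slope for every layer.  The probability that in every layer the winding has, up
to `C N^(-1/2)`, the prescribed slope is `exp (-∑ (x i ²/12 + O(N^(-1/2))) T i)`, and so is the
probability that in every layer it is at least as steep.  The constants do not depend on the adaptive
environment, on the number of the layers and on the slopes.  So the rate function has the scaling limit
`∫ |w'|²/12 = ∫ |w'|²/(2·6)`: that of `√6 B`, the driving function of radial `SLE_6`.
-/

set_option autoImplicit false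

namespace Pool.Agent.Results.MP_6c8efb_pr.WindingPathDeviations

open Filter Topology

/-- configurations of `M` rows of the cylinder of circumference `2n+1`: the state of the tile `(j,t)`
(the unit square with lower left corner `(j,t)`) is `c t (j mod 2n+1)` -/
abbrev Conf (n M : ℕ) : Type := Fin M → Fin (2 * n + 1) → Bool

/-- adjacency of the corners in the strip of `M` rows of the universal cover: the open diagonal of the
tile `(j,t)` is `(j,t) - (j+1,t+1)` in the state `false` and `(j+1,t) - (j,t+1)` in the state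
`true`; and at the bottom, in every period, the corners `2i` and `2i+2`, `i < n`, are joined -/
def Adj (n M : ℕ) (c : Conf n M) (x y : ℤ × ℤ) : Prop :=
  (∃ (j : ℤ) (t : Fin M),
    (c t (H906K.jx (2 * n) j) = false ∧ x = (j, (t : ℤ)) ∧ y = (j + 1, (t : ℤ) + 1)) ∨
    (c t (H906K.jx (2 * n) j) = true ∧ x = (j + 1, (t : ℤ)) ∧ y = (j, (t : ℤ) + 1))) ∨
  ∃ (k : ℤ) (i : ℕ), i < n ∧ x = (k * (2 * n + 1) + 2 * i, 0) ∧
    y = (k * (2 * n + 1) + 2 * i + 2, 0)

/-- the corners `x`, `y` are joined by an open path -/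
def Conn (n M : ℕ) (c : Conf n M) (x y : ℤ × ℤ) : Prop := Relation.EqvGen (Adj n M c) x y

/-- the leftmost corner at the top which is connected to the arc `[0, 2n]` of the bottom -/
noncomputable def left (n M : ℕ) (c : Conf n M) : ℤ :=
  sInf {p : ℤ | Conn n M c (0, 0) (p, (M : ℤ))}

/-- the first `m` rows -/
def rows {n M : ℕ} (c : Conf n M) (m : ℕ) : Conf n m :=
  fun t j => if h : (t : ℕ) < M then c ⟨t, h⟩ j else false

/-- an adaptive environment: the angle of the row `t` is a function of the configuration of the `t`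
rows below it -/
abbrev Env (n : ℕ) : Type := (t : ℕ) → Conf n t → ℝ

/-- the isoradial probability of the state `true` for the angle `θ`; it is `1/2` for `θ = π/2` -/
noncomputable def isoP (θ : ℝ) : ℝ :=
  Real.sin (θ / 3) / (Real.sin (θ / 3) + Real.sin ((Real.pi - θ) / 3))

/-- the mean value over the `M` lowest rows: given the rows below, the tiles of a row are independent
and in the state `true` with the probability `isoP` of the angle of the row -/
noncomputable def mean {n : ℕ} (θ : Env n) (M : ℕ) (F : Conf n M → ℝ) : ℝ :=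
  ∑ c, (∏ t : Fin M, ∏ j, if c t j = true then isoP (θ t (rows c t))
    else 1 - isoP (θ t (rows c t))) * F c

open Classical in
/-- the probability of the event `A` -/
noncomputable def prob {n : ℕ} (θ : Env n) (M : ℕ) (A : Conf n M → Prop) : ℝ :=
  mean θ M (fun c => if A c then 1 else 0)

/-- the winding in the rows `A ≤ t < B`: the horizontal displacement of the crossing in the isoradial
embedding, in units in which the circumference is `2π` -/
noncomputable def wnd {n M : ℕ} (θ : Env n) (A B : ℕ) (c : Conf n M) : ℝ :=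
  2 * Real.pi / (2 * n + 1) * ((left n B (rows c B) : ℝ) - left n A (rows c A)
    - ∑ t ∈ Finset.Ico A B, Real.cos (θ t (rows c t)))

/-- the height of the rows `A ≤ t < B`, in units in which the circumference is `2π` -/
noncomputable def height {n M : ℕ} (θ : Env n) (A B : ℕ) (c : Conf n M) : ℝ :=
  2 * Real.pi / (2 * n + 1) * ∑ t ∈ Finset.Ico A B, Real.sin (θ t (rows c t))

/-- the proportion of the configurations in `A`: the probability for `p = 1/2` -/
noncomputable def freq {n M : ℕ} (A : Conf n M → Prop) : ℝ :=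
  (Nat.card {c : Conf n M // A c} : ℝ) / 2 ^ ((2 * n + 1) * M)

theorem prob_eq {n : ℕ} (θ : Env n) (M : ℕ) (A : Conf n M → Prop) :
    prob θ M A = H729I.PrE θ M A := rfl

theorem wnd_eq {n M : ℕ} (hn : 1 ≤ n) (θ : Env n) (A B : ℕ) (c : Conf n M) :
    wnd θ A B c = H729I.wI θ A B c := by
  have h3 : H729I.dis (H729I.rows c B) = (left n B (rows c B) : ℝ) :=
    H729I.dis_left hn (H729I.rows c B)
  have h4 : H729I.dis (H729I.rows c A) = (left n A (rows c A) : ℝ) :=
    H729I.dis_left hn (H729I.rows c A)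
  unfold H729I.wI
  rw [h3, h4]
  rfl

theorem isoP_half : isoP (Real.pi / 2) = 1 / 2 := by
  unfold isoP
  rw [show (Real.pi - Real.pi / 2) / 3 = Real.pi / 2 / 3 by ring]
  have : Real.sin (Real.pi / 2 / 3) ≠ 0 := by
    rw [show Real.pi / 2 / 3 = Real.pi / 6 by ring, Real.sin_pi_div_six]
    norm_num
  field_simp
  norm_num

theorem prob_half {n : ℕ} (M : ℕ) (A : Conf n M → Prop) :
    prob (fun _ _ => Real.pi / 2) M A = freq A := by
  classical
  unfold prob mean freq
  have h1 : ∀ c : Conf n M, (∏ t : Fin M, ∏ j, (if c t j = true then isoP (Real.pi / 2)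
      else 1 - isoP (Real.pi / 2))) = (1 / 2 : ℝ) ^ ((2 * n + 1) * M) := by
    intro c
    rw [isoP_half]
    have h2 : ∀ (t : Fin M) (j : Fin (2 * n + 1)),
        (if c t j = true then (1 / 2 : ℝ) else 1 - 1 / 2) = 1 / 2 := by
      intro t j
      split_ifs <;> norm_num
    simp only [h2, Finset.prod_const, Finset.card_univ, Fintype.card_fin]
    rw [← pow_mul]
  simp only [h1, mul_ite, mul_one, mul_zero]
  rw [← Finset.sum_filter, Finset.sum_const, nsmul_eq_mul, Nat.card_eq_fintype_card,
    Fintype.card_subtype, one_div, inv_pow, div_eq_mul_inv]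

theorem result :
    (∀ (n M : ℕ) (c : Conf n M), 1 ≤ n →
      Conn n M c (0, 0) (left n M c, M) ∧ Conn n M c (0, 0) (left n M c + 2 * n, M) ∧
      ∀ p : ℤ, Conn n M c (0, 0) (p, M) → left n M c ≤ p ∧ p ≤ left n M c + 2 * n) ∧
    (∃ x₀ C : ℝ, 0 < x₀ ∧ ∃ n₀ : ℕ, ∀ n : ℕ, n₀ ≤ n → ∀ D : ℝ, ∃ T₀ : ℝ,
      ∀ θ : Env n, (∀ t c, θ t c ∈ Set.Icc 0 Real.pi) → ∀ τ : ℕ → ℕ, Monotone τ →
      ∀ (s x T : ℕ → ℝ) (r : ℕ),
        (∀ i, i < r → |s i| = 1 ∧ 0 ≤ x i ∧ x i ≤ x₀ ∧ T₀ ≤ T i ∧ ∀ c : Conf n (τ (i + 1)),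
          T i ≤ height θ (τ i) (τ (i + 1)) c ∧ height θ (τ i) (τ (i + 1)) c ≤ T i + D) →
        Real.exp (-∑ i ∈ Finset.range r, (x i ^ 2 / 12 + C / √(2 * n + 1)) * T i)
          ≤ prob θ (τ r) (fun c => ∀ i, i < r → x i * T i ≤ s i * wnd θ (τ i) (τ (i + 1)) c ∧
            s i * wnd θ (τ i) (τ (i + 1)) c ≤ (x i + C / √(2 * n + 1)) * T i) ∧
        prob θ (τ r) (fun c => ∀ i, i < r → x i * T i ≤ s i * wnd θ (τ i) (τ (i + 1)) c)
          ≤ Real.exp (-∑ i ∈ Finset.range r, (x i ^ 2 / 12 - C / √(2 * n + 1)) * T i)) ∧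
    ∃ x₀ C : ℝ, 0 < x₀ ∧ ∃ n₀ : ℕ, ∀ n : ℕ, n₀ ≤ n → ∃ M₀ : ℕ, ∀ M : ℕ, M₀ ≤ M →
      ∀ x : ℝ, 0 ≤ x → x ≤ x₀ → ∀ s : ℝ, |s| = 1 → ∀ T : ℝ, T = 2 * Real.pi * M / (2 * n + 1) →
        Real.exp (-(x ^ 2 / 12 + C / √(2 * n + 1)) * T)
          ≤ freq (fun c : Conf n M => x * T ≤ s * (2 * Real.pi * left n M c / (2 * n + 1)) ∧
            s * (2 * Real.pi * left n M c / (2 * n + 1)) ≤ (x + C / √(2 * n + 1)) * T) ∧
        freq (fun c : Conf n M => x * T ≤ s * (2 * Real.pi * left n M c / (2 * n + 1)))
          ≤ Real.exp (-(x ^ 2 / 12 - C / √(2 * n + 1)) * T) := by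
  have main : ∃ x₀ C : ℝ, 0 < x₀ ∧ ∃ n₀ : ℕ, 1 ≤ n₀ ∧ ∀ n : ℕ, n₀ ≤ n → ∀ D : ℝ, ∃ T₀ : ℝ,
      ∀ θ : Env n, (∀ t c, θ t c ∈ Set.Icc 0 Real.pi) → ∀ τ : ℕ → ℕ, Monotone τ →
      ∀ (s x T : ℕ → ℝ) (r : ℕ),
        (∀ i, i < r → |s i| = 1 ∧ 0 ≤ x i ∧ x i ≤ x₀ ∧ T₀ ≤ T i ∧ ∀ c : Conf n (τ (i + 1)),
          T i ≤ height θ (τ i) (τ (i + 1)) c ∧ height θ (τ i) (τ (i + 1)) c ≤ T i + D) →
        Real.exp (-∑ i ∈ Finset.range r, (x i ^ 2 / 12 + C / √(2 * n + 1)) * T i)
          ≤ prob θ (τ r) (fun c => ∀ i, i < r → x i * T i ≤ s i * wnd θ (τ i) (τ (i + 1)) c ∧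
            s i * wnd θ (τ i) (τ (i + 1)) c ≤ (x i + C / √(2 * n + 1)) * T i) ∧
        prob θ (τ r) (fun c => ∀ i, i < r → x i * T i ≤ s i * wnd θ (τ i) (τ (i + 1)) c)
          ≤ Real.exp (-∑ i ∈ Finset.range r, (x i ^ 2 / 12 - C / √(2 * n + 1)) * T i) := by
    obtain ⟨x₀, C, hx₀, n₀, hn₀, h⟩ := H729I.ldp_multi
    refine ⟨x₀, C, hx₀, n₀, hn₀, fun n hn D => ?_⟩
    have hn1 : 1 ≤ n := hn₀.trans hn
    obtain ⟨T₀, h1⟩ := h n hn D
    refine ⟨T₀, fun θ hθ τ hτ s x T r hr => ?_⟩
    have h3 := h1 θ hθ τ hτ s x T r hr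
    simp only [wnd_eq hn1, prob_eq]
    exact h3
  refine ⟨?_, ?_, ?_⟩
  · intro n M c hn
    have hL : left n M c = Y994.KW.X n M c := Y994.KW.Lft_eq Y994.KW.All.CRS n M c hn
    obtain ⟨h1, h2, h3⟩ := Y994.KW.All.CRS n M c hn
    rw [hL]
    exact ⟨h1, h2, h3⟩
  · obtain ⟨x₀, C, hx₀, n₀, -, h⟩ := main
    exact ⟨x₀, C, hx₀, n₀, h⟩
  · obtain ⟨x₀, C, hx₀, n₀, hn₀, h⟩ := main
    refine ⟨x₀, C, hx₀, n₀, fun n hn => ?_⟩
    have hn1 : 1 ≤ n := hn₀.trans hn
    obtain ⟨T₀, h1⟩ := h n hn 0
    have hpi := Real.pi_pos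
    refine ⟨⌈T₀ * (2 * n + 1) / (2 * Real.pi)⌉₊, fun M hM x hx0 hx s hs T hT => ?_⟩
    have hTT : T₀ ≤ T := by
      have h2 := (Nat.le_ceil _).trans (Nat.cast_le.2 hM)
      rw [div_le_iff₀ (by positivity)] at h2
      rw [hT, le_div_iff₀ (by positivity)]
      linarith
    obtain ⟨τ, hτ⟩ : ∃ τ : ℕ → ℕ, τ = fun i => if i = 0 then 0 else M := ⟨_, rfl⟩
    have hτ0 : τ 0 = 0 := by rw [hτ]; rfl
    have hτ1 : τ 1 = M := by rw [hτ]; rfl
    have hτm : Monotone τ := by
      intro i j hij
      rw [hτ]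
      beta_reduce
      split_ifs with h3 h4
      · exact le_rfl
      · exact Nat.zero_le _
      · omega
      · exact le_rfl
    have hw : ∀ c : Conf n M, wnd (fun _ _ => Real.pi / 2) 0 M c
        = 2 * Real.pi * left n M c / (2 * n + 1) := by
      intro c
      have h4 : H729I.dis (H729I.rows c 0) = (left n 0 (rows c 0) : ℝ) :=
        H729I.dis_left hn1 (H729I.rows c 0)
      have h5 : H729I.dis (H729I.rows c 0) = ((0 : ℤ) : ℝ) := rfl
      have h6 : rows c M = c := H729I.rows_self c
      unfold wnd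
      rw [← h4, h5, h6, Finset.sum_eq_zero fun _ _ => Real.cos_pi_div_two, sub_zero, Int.cast_zero,
        sub_zero]
      ring
    have hh : ∀ c : Conf n M, height (fun _ _ => Real.pi / 2) 0 M c = T := by
      intro c
      unfold height
      simp only [Real.sin_pi_div_two, Finset.sum_const, Nat.card_Ico, nsmul_eq_mul, mul_one,
        Nat.sub_zero]
      rw [hT]
      ring
    have h3 := h1 (fun _ _ => Real.pi / 2) (fun _ _ => ⟨by positivity, by linarith⟩) τ hτm
      (fun _ => s) (fun _ => x) (fun _ => T) 1 (fun i hi => by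
        have hi0 : i = 0 := by omega
        subst hi0
        refine ⟨hs, hx0, hx, hTT, ?_⟩
        rw [zero_add, hτ0, hτ1]
        intro c
        rw [hh c, add_zero]
        exact ⟨le_rfl, le_rfl⟩)
    rw [hτ1, prob_half, prob_half, Finset.sum_range_one, Finset.sum_range_one, ← neg_mul,
      ← neg_mul] at h3
    have e1 : (fun c : Conf n M => ∀ i, i < 1 → x * T ≤ s * wnd (fun _ _ => Real.pi / 2) (τ i)
        (τ (i + 1)) c ∧ s * wnd (fun _ _ => Real.pi / 2) (τ i) (τ (i + 1)) c
          ≤ (x + C / √(2 * n + 1)) * T)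
        = fun c : Conf n M => x * T ≤ s * (2 * Real.pi * left n M c / (2 * n + 1)) ∧
            s * (2 * Real.pi * left n M c / (2 * n + 1)) ≤ (x + C / √(2 * n + 1)) * T := by
      funext c
      rw [← hw c]
      apply propext
      constructor
      · intro h7
        have h8 := h7 0 zero_lt_one
        rwa [zero_add, hτ0, hτ1] at h8
      · intro h7 i hi
        have hi0 : i = 0 := by omega
        subst hi0
        rwa [zero_add, hτ0, hτ1]
    have e2 : (fun c : Conf n M => ∀ i, i < 1 → x * T ≤ s * wnd (fun _ _ => Real.pi / 2) (τ i)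
        (τ (i + 1)) c)
        = fun c : Conf n M => x * T ≤ s * (2 * Real.pi * left n M c / (2 * n + 1)) := by
      funext c
      rw [← hw c]
      apply propext
      constructor
      · intro h7
        have h8 := h7 0 zero_lt_one
        rwa [zero_add, hτ0, hτ1] at h8
      · intro h7 i hi
        have hi0 : i = 0 := by omega
        subst hi0
        rwa [zero_add, hτ0, hτ1]
    rw [e1, e2] at h3
    exact h3

end Pool.Agent.Results.MP_6c8efb_pr.WindingPathDeviations
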